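import Mathlib
import Pool.Agent.E8helper11.GS.Stm

set_option autoImplicit false

open Filter Topology
open scoped Classical

namespace Pool.Agent.E8helper68.GS

open Pool.Agent.E8helper11.GS

noncomputable def fac (m : ℕ → ℕ) (B : ℕ → Finset ℕ) (j a k : ℕ) : ℝ :=
  if j < (Ms m (k + 1)) ^ 2 then (1 + lam m k) ^ ((B k).filter (fun q => Hit j a q)).card else 1

noncomputable def W (m : ℕ → ℕ) (B : ℕ → Finset ℕ) (K j a : ℕ) : ℝ :=
  ((4:ℝ)^j * (j:ℝ)^2)⁻¹ * ∏ k ∈ Finset.range K, fac m B j a k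

lemma lam_nonneg (m : ℕ → ℕ) (k : ℕ) : 0 ≤ lam m k := by
  unfold lam; positivity

lemma fac_nonneg (m : ℕ → ℕ) (B : ℕ → Finset ℕ) (j a k : ℕ) : 0 ≤ fac m B j a k := by
  unfold fac
  split_ifs
  · have := lam_nonneg m k
    positivity
  · exact zero_le_one

lemma W_nonneg (m : ℕ → ℕ) (B : ℕ → Finset ℕ) (K j a : ℕ) : 0 ≤ W m B K j a := by
  unfold W
  exact mul_nonneg (by positivity) (Finset.prod_nonneg (fun k _ => fac_nonneg m B j a k))

lemma W_congr (m : ℕ → ℕ) (B B' : ℕ → Finset ℕ) (K j a : ℕ) (h : ∀ k < K, B k = B' k) :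
    W m B K j a = W m B' K j a := by
  unfold W
  congr 1
  apply Finset.prod_congr rfl
  intro k hk
  unfold fac
  rw [h k (Finset.mem_range.mp hk)]

lemma Ms_mono (m : ℕ → ℕ) : Monotone (Ms m) := by
  apply monotone_nat_of_le_succ
  intro n
  unfold Ms
  rw [Finset.sum_range_succ]
  omega

lemma prod_one (m : ℕ → ℕ) (B : ℕ → Finset ℕ) (K j a : ℕ) (h : (Ms m K) ^ 2 ≤ j) :
    ∏ k ∈ Finset.range K, fac m B j a k = 1 := by
  apply Finset.prod_eq_one
  intro k hk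
  unfold fac
  rw [if_neg]
  have h1 : Ms m (k + 1) ≤ Ms m K := Ms_mono m (Finset.mem_range.mp hk)
  have h2 : (Ms m (k + 1)) ^ 2 ≤ (Ms m K) ^ 2 := Nat.pow_le_pow_left h1 2
  omega

lemma W_new (m : ℕ → ℕ) (B : ℕ → Finset ℕ) (K j a : ℕ) (h : (Ms m K) ^ 2 ≤ j) :
    W m B K j a = ((4:ℝ)^j * (j:ℝ)^2)⁻¹ := by
  unfold W
  rw [prod_one m B K j a h, mul_one]

lemma expo (m : ℕ → ℕ) (K : ℕ) :
    (1 + 2 * lam m K * ((4 * (Ms m (K + 1)) ^ 6 : ℕ) : ℝ) / ((Cb K).card : ℝ)) ^ (m K) ≤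
      Real.exp (1 / ((K : ℝ) + 1) ^ 2) := by
  have hl := lam_nonneg m K
  have h0 : 0 ≤ 2 * lam m K * ((4 * (Ms m (K + 1)) ^ 6 : ℕ) : ℝ) / ((Cb K).card : ℝ) := by
    positivity
  have h1 : (1 + 2 * lam m K * ((4 * (Ms m (K + 1)) ^ 6 : ℕ) : ℝ) / ((Cb K).card : ℝ)) ^ (m K) ≤
      (Real.exp (2 * lam m K * ((4 * (Ms m (K + 1)) ^ 6 : ℕ) : ℝ) / ((Cb K).card : ℝ))) ^ (m K) := by
    apply pow_le_pow_left₀ (by linarith)
    have := Real.add_one_le_exp (2 * lam m K * ((4 * (Ms m (K + 1)) ^ 6 : ℕ) : ℝ) / ((Cb K).card : ℝ))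
    linarith
  refine h1.trans ?_
  rw [← Real.exp_nat_mul]
  apply Real.exp_le_exp.mpr
  have hK : (0:ℝ) < (K:ℝ) + 1 := by positivity
  have hr : (0:ℝ) ≤ 1 / ((K : ℝ) + 1) ^ 2 := by positivity
  unfold lam
  rcases Nat.eq_zero_or_pos (m K) with h | h
  · rw [h]; simpa using hr
  rcases Nat.eq_zero_or_pos (Cb K).card with h' | h'
  · rw [h']; simpa using hr
  have hM : 0 < Ms m (K + 1) := by
    unfold Ms
    rw [Finset.sum_range_succ]
    omega
  have e1 : (0:ℝ) < (m K : ℝ) := by exact_mod_cast h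
  have e2 : (0:ℝ) < ((Cb K).card : ℝ) := by exact_mod_cast h'
  have e3 : (0:ℝ) < (Ms m (K + 1) : ℝ) := by exact_mod_cast hM
  apply le_of_eq
  push_cast
  field_simp
  ring

lemma step (hBL : S_BL) (hHC : S_HC) (m : ℕ → ℕ) (K : ℕ) (hm : 2 * m K ≤ (Cb K).card)
    (B' : ℕ → Finset ℕ) :
    ∃ S : Finset ℕ, S ⊆ Cb K ∧ S.card = m K ∧
      ∑ j ∈ Finset.Ico 1 ((Ms m (K+1))^2), ∑ a ∈ Finset.range (4^j),
        W m B' K j a * (1 + lam m K)^(S.filter (fun q => Hit j a q)).card ≤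
      Real.exp (1/((K:ℝ)+1)^2) *
        ∑ j ∈ Finset.Ico 1 ((Ms m (K+1))^2), ∑ a ∈ Finset.range (4^j), W m B' K j a := by
  obtain ⟨S, hS, hc, hsum⟩ := hBL ((_ : ℕ) × ℕ)
    ((Finset.Ico 1 ((Ms m (K+1))^2)).sigma (fun j => Finset.range (4^j)))
    (fun s => W m B' K s.1 s.2) (Cb K) (fun s q => Hit s.1 s.2 q) (4 * (Ms m (K + 1)) ^ 6) (m K)
    (lam m K) (fun s _ => W_nonneg m B' K s.1 s.2) (lam_nonneg m K) hm (by
      intro s hs
      rw [Finset.mem_sigma] at hs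
      obtain ⟨h1, h2⟩ := hs
      rw [Finset.mem_Ico] at h1
      rw [Finset.mem_range] at h2
      refine (hHC s.1 s.2 K h1.1 h2).trans ?_
      have h3 : s.1 ≤ (Ms m (K + 1)) ^ 2 := h1.2.le
      calc 4 * s.1 ^ 3 ≤ 4 * ((Ms m (K + 1)) ^ 2) ^ 3 :=
            Nat.mul_le_mul_left 4 (Nat.pow_le_pow_left h3 3)
        _ = 4 * (Ms m (K + 1)) ^ 6 := by ring)
  refine ⟨S, hS, hc, ?_⟩
  rw [Finset.sum_sigma, Finset.sum_sigma] at hsum
  refine hsum.trans ?_
  apply mul_le_mul_of_nonneg_right (expo m K)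
  exact Finset.sum_nonneg (fun j _ => Finset.sum_nonneg (fun a _ => W_nonneg m B' K j a))

lemma sum_sq' (N : ℕ) : ∑ i ∈ Finset.range (N + 1), 1 / ((i : ℝ) + 1) ^ 2 ≤ 2 - 1 / ((N : ℝ) + 1) := by
  induction N with
  | zero => norm_num
  | succ n ih =>
    rw [Finset.sum_range_succ]
    have h1 : (0:ℝ) < (n:ℝ) + 1 := by positivity
    have h2 : (0:ℝ) < (n:ℝ) + 1 + 1 := by positivity
    have h3 : 1 / (((n:ℝ) + 1) + 1) ^ 2 ≤ 1 / ((n:ℝ) + 1) - 1 / ((n:ℝ) + 1 + 1) := by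
      rw [div_sub_div _ _ h1.ne' h2.ne', div_le_div_iff₀ (by positivity) (by positivity)]
      nlinarith
    push_cast
    linarith

lemma sum_sq (N : ℕ) : ∑ i ∈ Finset.range N, 1 / ((i : ℝ) + 1) ^ 2 ≤ 2 := by
  rcases N with _ | n
  · norm_num
  · have := sum_sq' n
    have h : (0:ℝ) ≤ 1 / ((n:ℝ) + 1) := by positivity
    linarith

/-- `∑_{1 ≤ j < N} 1/j²` -/
noncomputable def R (N : ℕ) : ℝ := ∑ j ∈ Finset.Ico 1 N, 1 / (j : ℝ) ^ 2

lemma R_le (N : ℕ) : R N ≤ 2 := by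
  unfold R
  rw [Finset.sum_Ico_eq_sum_range]
  have := sum_sq (N - 1)
  refine le_trans (le_of_eq ?_) this
  apply Finset.sum_congr rfl
  intro i _
  push_cast
  ring_nf

lemma inner_new (m : ℕ → ℕ) (B : ℕ → Finset ℕ) (K j : ℕ) (hj : 1 ≤ j) (h : (Ms m K) ^ 2 ≤ j) :
    ∑ a ∈ Finset.range (4^j), W m B K j a = 1 / (j:ℝ)^2 := by
  rw [Finset.sum_congr rfl (fun a _ => W_new m B K j a h), Finset.sum_const, Finset.card_range,
    nsmul_eq_mul]
  have h1 : (0:ℝ) < (j:ℝ) := by exact_mod_cast hj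
  push_cast
  field_simp

theorem t_SEL : S_SEL := by
  intro hBL hHC m hm
  choose ch hch1 hch2 hch3 using fun (K : ℕ) (B' : ℕ → Finset ℕ) => step hBL hHC m K (hm K) B'
  let G : ℕ → (ℕ → Finset ℕ) := fun K => Nat.rec (fun _ => (∅ : Finset ℕ))
    (fun K g => Function.update g K (ch K g)) K
  have G1 : ∀ K, G (K + 1) = Function.update (G K) K (ch K (G K)) := fun K => rfl
  let B : ℕ → Finset ℕ := fun K => ch K (G K)
  have hG : ∀ K, ∀ k < K, G K k = B k := by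
    intro K
    induction K with
    | zero => intro k hk; omega
    | succ K ih =>
      intro k hk
      rw [G1]
      by_cases h : k = K
      · subst h
        rw [Function.update_self]
      · rw [Function.update_of_ne h]
        exact ih k (by omega)
  have hW : ∀ K j a, W m (G K) K j a = W m B K j a := fun K j a =>
    W_congr m (G K) B K j a (hG K)
  have hstep : ∀ K, ∑ j ∈ Finset.Ico 1 ((Ms m (K+1))^2), ∑ a ∈ Finset.range (4^j),
        W m B (K + 1) j a ≤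
      Real.exp (1/((K:ℝ)+1)^2) *
        ∑ j ∈ Finset.Ico 1 ((Ms m (K+1))^2), ∑ a ∈ Finset.range (4^j), W m B K j a := by
    intro K
    have h := hch3 K (G K)
    simp only [hW] at h
    refine le_trans (le_of_eq ?_) h
    apply Finset.sum_congr rfl
    intro j hj
    apply Finset.sum_congr rfl
    intro a _
    rw [Finset.mem_Ico] at hj
    unfold W
    rw [Finset.prod_range_succ, ← mul_assoc]
    congr 1
    unfold fac
    rw [if_pos hj.2]
  have hPhi : ∀ K, ∑ j ∈ Finset.Ico 1 ((Ms m K)^2), ∑ a ∈ Finset.range (4^j), W m B K j a ≤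
      Real.exp (∑ i ∈ Finset.range K, 1 / ((i : ℝ) + 1) ^ 2) * R ((Ms m K)^2) := by
    intro K
    induction K with
    | zero => simp [Ms, R]
    | succ K ih =>
      refine (hstep K).trans ?_
      rw [Finset.sum_range_succ, add_comm (∑ i ∈ Finset.range K, 1 / ((i : ℝ) + 1) ^ 2),
        Real.exp_add, mul_assoc]
      apply mul_le_mul_of_nonneg_left _ (Real.exp_pos _).le
      have hle : (Ms m K) ^ 2 ≤ (Ms m (K + 1)) ^ 2 :=
        Nat.pow_le_pow_left (Ms_mono m (Nat.le_succ K)) 2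
      by_cases h1 : 1 ≤ (Ms m K) ^ 2
      · have hs : ∀ F : ℕ → ℝ, ∑ j ∈ Finset.Ico 1 ((Ms m (K+1))^2), F j =
            ∑ j ∈ Finset.Ico 1 ((Ms m K)^2), F j +
            ∑ j ∈ Finset.Ico ((Ms m K)^2) ((Ms m (K+1))^2), F j := fun F =>
          (Finset.sum_Ico_consecutive F h1 hle).symm
        unfold R at ih ⊢
        rw [hs, hs, mul_add]
        apply add_le_add ih
        have he : (1:ℝ) ≤ Real.exp (∑ i ∈ Finset.range K, 1 / ((i : ℝ) + 1) ^ 2) := by
          apply Real.one_le_exp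
          positivity
        have hn : ∑ j ∈ Finset.Ico ((Ms m K)^2) ((Ms m (K+1))^2),
            ∑ a ∈ Finset.range (4^j), W m B K j a =
            ∑ j ∈ Finset.Ico ((Ms m K)^2) ((Ms m (K+1))^2), 1 / (j:ℝ)^2 := by
          apply Finset.sum_congr rfl
          intro j hj
          rw [Finset.mem_Ico] at hj
          exact inner_new m B K j (by omega) hj.1
        rw [hn]
        have h0 : 0 ≤ ∑ j ∈ Finset.Ico ((Ms m K)^2) ((Ms m (K+1))^2), 1 / (j:ℝ)^2 := by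
          positivity
        nlinarith
      · have he : (1:ℝ) ≤ Real.exp (∑ i ∈ Finset.range K, 1 / ((i : ℝ) + 1) ^ 2) := by
          apply Real.one_le_exp
          positivity
        unfold R
        have hn : ∑ j ∈ Finset.Ico 1 ((Ms m (K+1))^2),
            ∑ a ∈ Finset.range (4^j), W m B K j a =
            ∑ j ∈ Finset.Ico 1 ((Ms m (K+1))^2), 1 / (j:ℝ)^2 := by
          apply Finset.sum_congr rfl
          intro j hj
          rw [Finset.mem_Ico] at hj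
          exact inner_new m B K j hj.1 (by omega)
        rw [hn]
        have h0 : 0 ≤ ∑ j ∈ Finset.Ico 1 ((Ms m (K+1))^2), 1 / (j:ℝ)^2 := by
          positivity
        nlinarith
  refine ⟨B, fun k => hch1 k (G k), fun k => hch2 k (G k), ?_⟩
  intro j a K hj ha
  change ∏ k ∈ Finset.range K, fac m B j a k ≤ 15 * (4 : ℝ) ^ j * (j : ℝ) ^ 2
  have hj1 : (1:ℝ) ≤ (j:ℝ) := by exact_mod_cast hj
  have h4 : (1:ℝ) ≤ (4:ℝ)^j := one_le_pow₀ (by norm_num)
  have hj2 : (1:ℝ) ≤ (j:ℝ)^2 := one_le_pow₀ hj1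
  by_cases h : (Ms m K) ^ 2 ≤ j
  · rw [prod_one m B K j a h]
    nlinarith
  · push Not at h
    have h1 : W m B K j a ≤
        ∑ j ∈ Finset.Ico 1 ((Ms m K)^2), ∑ a ∈ Finset.range (4^j), W m B K j a := by
      have e1 : W m B K j a ≤ ∑ a ∈ Finset.range (4^j), W m B K j a :=
        Finset.single_le_sum (f := fun a => W m B K j a) (fun a _ => W_nonneg m B K j a)
          (Finset.mem_range.mpr ha)
      refine e1.trans ?_
      exact Finset.single_le_sum (f := fun j => ∑ a ∈ Finset.range (4^j), W m B K j a)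
        (fun j _ => Finset.sum_nonneg (fun a _ => W_nonneg m B K j a))
        (Finset.mem_Ico.mpr ⟨hj, h⟩)
    have h2 := h1.trans (hPhi K)
    have h3 : Real.exp (∑ i ∈ Finset.range K, 1 / ((i : ℝ) + 1) ^ 2) * R ((Ms m K)^2) ≤ 15 := by
      have e1 : Real.exp (∑ i ∈ Finset.range K, 1 / ((i : ℝ) + 1) ^ 2) ≤ Real.exp 2 :=
        Real.exp_le_exp.mpr (sum_sq K)
      have e2 : Real.exp 2 ≤ 7.5 := by
        have e3 : Real.exp 2 = (Real.exp 1)^2 := by
          rw [← Real.exp_nat_mul]; norm_num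
        have e4 := Real.exp_one_lt_d9
        have e5 := Real.exp_pos 1
        rw [e3]
        nlinarith
      have e6 := R_le ((Ms m K)^2)
      have e7 : 0 ≤ R ((Ms m K)^2) := by unfold R; positivity
      have e8 := Real.exp_pos (∑ i ∈ Finset.range K, 1 / ((i : ℝ) + 1) ^ 2)
      calc Real.exp (∑ i ∈ Finset.range K, 1 / ((i : ℝ) + 1) ^ 2) * R ((Ms m K)^2)
          ≤ 7.5 * 2 := mul_le_mul (e1.trans e2) e6 e7 (by norm_num)
        _ = 15 := by norm_num
    have h5 := h2.trans h3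
    unfold W at h5
    have hpos : (0:ℝ) < (4:ℝ)^j * (j:ℝ)^2 := by positivity
    rw [inv_mul_le_iff₀ hpos] at h5
    calc ∏ k ∈ Finset.range K, fac m B j a k ≤ (4:ℝ)^j * (j:ℝ)^2 * 15 := h5
      _ = 15 * (4 : ℝ) ^ j * (j : ℝ) ^ 2 := by ring

end Pool.Agent.E8helper68.GS
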